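import Pool.Agent.GTO.StmtsB
import Pool.Agent.Helper20_GTO.NCS

/-! Squad GTO, row STC. -/

namespace Pool.Agent.GTO.H33

open Finset
open scoped Classical

/-- the values of `φ` at the nonsingular points are closed under `(g, h) ↦ -g - h` -/
theorem cl {c : Fin 10 → ℝ} {G : Type} [AddCommGroup G] {φ : V → G} (hG : Grp c G φ) {g h : G}
    (hg : ∃ v, Ns c v ∧ φ v = g) (hh : ∃ v, Ns c v ∧ φ v = h) : ∃ v, Ns c v ∧ φ v = -g - h := by
  obtain ⟨u, hu, rfl⟩ := hg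
  obtain ⟨v, hv, rfl⟩ := hh
  by_cases hc : cr u v = 0
  · obtain ⟨w, hw, _, h2⟩ := hG.tangent u hu
    refine ⟨w, hw, ?_⟩
    rw [← (hG.par u v hu hv).2 hc]
    have h3 : φ w = -(φ u + φ u) := (neg_eq_of_add_eq_zero_right h2).symm
    rw [h3]
    abel
  · obtain ⟨w, hw, _, h2⟩ := hG.third u v hu hv hc
    refine ⟨w, hw, ?_⟩
    have h3 : φ w = -(φ u + φ v) := (neg_eq_of_add_eq_zero_right h2).symm
    rw [h3]
    abel

theorem stc (hNEA : NeaStmt) : StcStmt := by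
  intro ι _ a c G _ φ hPI hNL hG hS hn hD hT hZ
  obtain ⟨h1, h2⟩ := hNEA ι a c G φ hPI hG hS hn hD hT hZ
  have hne : (SS a c φ).Nonempty := by
    rw [← Finset.card_pos]
    omega
  obtain ⟨H, _, hcl, hHS, hSH, hsp⟩ := H20.ncs (SS a c φ) 229 hne h2 (by omega)
  have hmem : ∀ g, g ∈ SS a c φ ↔ ∃ i, Ns c (a i) ∧ φ (a i) = g := by
    intro g
    simp [SS]
  have hpt : ∀ g ∈ SS a c φ, ∃ v, Ns c v ∧ φ v = g := by
    intro g hg
    obtain ⟨i, hi, e⟩ := (hmem g).1 hg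
    exact ⟨a i, hi, e⟩
  refine ⟨H, ⟨hPI, hNL, hG, hS, hcl, ?_⟩, ?_, ?_⟩
  · intro h hh
    obtain ⟨x, hx, x', hx', x'', hx'', e⟩ := hsp h hh
    have e1 := cl hG (cl hG (hpt x hx) (hpt x' hx')) (hpt x'' hx'')
    have e2 : -(-x - x') - x'' = h := by
      rw [e]
      abel
    rwa [e2] at e1
  · have e1 : SS a c φ ∩ H ⊆ (QQ a c φ H).image fun i => φ (a i) := by
      intro g hg
      rw [Finset.mem_inter] at hg
      obtain ⟨i, hi, e⟩ := (hmem g).1 hg.1
      rw [Finset.mem_image]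
      refine ⟨i, ?_, e⟩
      rw [QQ, Finset.mem_filter]
      refine ⟨Finset.mem_univ _, hi, ?_⟩
      rw [e]
      exact hg.2
    have e2 := (Finset.card_le_card e1).trans Finset.card_image_le
    have e3 := Finset.card_sdiff_add_card_inter (SS a c φ) H
    omega
  · refine le_trans (Finset.card_le_card ?_) hHS
    intro h hh
    rw [MM, Finset.mem_filter] at hh
    rw [Finset.mem_sdiff]
    refine ⟨hh.1, fun h3 => ?_⟩
    obtain ⟨i, hi, e⟩ := (hmem h).1 h3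
    refine hh.2 i ?_ e
    rw [QQ, Finset.mem_filter]
    refine ⟨Finset.mem_univ _, hi, ?_⟩
    rw [e]
    exact hh.1

end Pool.Agent.GTO.H33
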